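import Pool.Agent.Helper67.Cube8.Defs
import Pool.Agent.Helper63.Cube7.DetE

/-!
# The weights of level 6 are invariant under the symmetries of the cube
-/

set_option autoImplicit false

namespace Helper51.Cube8

open Set Helper67.Cube Helper67.BS Helper67.Cube18 Helper67.Cube8

section general
variable {d : ℕ}

lemma continuous_gmap (g : Equiv.Perm (Fin d) × (Fin d → Bool)) : Continuous (gmap g) := by
  refine continuous_pi fun j => ?_
  unfold gmap
  by_cases h : g.2 j = true
  · simp only [h, if_true]
    exact continuous_const.sub (continuous_apply _)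
  · simp only [h]
    exact continuous_apply _

/-- the inverse symmetry (two-sided) -/
lemma exists_inv2 (g : Equiv.Perm (Fin d) × (Fin d → Bool)) :
    ∃ h : Equiv.Perm (Fin d) × (Fin d → Bool), (∀ x, gmap h (gmap g x) = x) ∧
      ∀ x, gmap g (gmap h x) = x := by
  refine ⟨(g.1.symm, fun j => g.2 (g.1.symm j)), fun x => ?_, fun x => ?_⟩
  · funext j
    simp only [gmap, Equiv.apply_symm_apply]
    split_ifs <;> ring
  · funext j
    simp only [gmap, Equiv.symm_apply_apply]
    split_ifs <;> ring

/-- the body of the image of a simplex -/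
lemma body_image {w w' : Fin (d+1) → Fin d → ℝ} {g h : Equiv.Perm (Fin d) × (Fin d → Bool)}
    {σ : Equiv.Perm (Fin (d+1))} (hh1 : ∀ x, gmap h (gmap g x) = x)
    (hh2 : ∀ x, gmap g (gmap h x) = x) (hw : ∀ q, w' q = gmap g (w (σ q))) :
    body w' = gmap h ⁻¹' body w := by
  have h1 : body w ⊆ {y | gmap g y ∈ convexHull ℝ (range w')} := by
    refine body_subset_preimage w g fun i => ⟨σ.symm i, ?_⟩
    rw [hw, Equiv.apply_symm_apply]
  have h2 : body w' ⊆ {y | gmap h y ∈ convexHull ℝ (range w)} := by
    refine body_subset_preimage w' h fun i => ⟨σ i, ?_⟩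
    rw [hw, hh1]
  refine Subset.antisymm (fun y hy => h2 hy) fun y hy => ?_
  have h3 := h1 (show gmap h y ∈ body w from hy)
  rw [mem_ofPred_eq, hh2] at h3
  exact h3

lemma cnt_body_inv {w w' : Fin (d+1) → Fin d → ℝ} {g : Equiv.Perm (Fin d) × (Fin d → Bool)}
    {σ : Equiv.Perm (Fin (d+1))} (hw : ∀ q, w' q = gmap g (w (σ q))) (x : Fin d → ℝ) :
    cnt x (body w') = cnt x (body w) ∧
      cnt x (interior (body w')) = cnt x (interior (body w)) := by
  obtain ⟨h, hh1, hh2⟩ := exists_inv2 g
  have hb := body_image hh1 hh2 hw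
  let e : (Fin d → ℝ) ≃ₜ (Fin d → ℝ) :=
    { toFun := gmap h
      invFun := gmap g
      left_inv := hh2
      right_inv := hh1
      continuous_toFun := continuous_gmap h
      continuous_invFun := continuous_gmap g }
  have hi : interior (body w') = gmap h ⁻¹' interior (body w) := by
    rw [hb]
    exact (e.preimage_interior (body w)).symm
  constructor
  · rw [hb]
    exact cnt_preimage x (body w) h
  · rw [hi]
    exact cnt_preimage x (interior (body w)) h

end general

/-- **the objective is invariant** -/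
theorem inv6_PhiL (Q : ℕ) (x : ℕ → Fin 6 → ℕ) (lp ln : List ℕ) : Inv6 (PhiL Q x lp ln) := by
  intro w w' g σ hw
  have h1 : ∀ y : Fin 6 → ℝ, cnt y (body w') = cnt y (body w) := fun y => (cnt_body_inv hw y).1
  have h2 : ∀ y : Fin 6 → ℝ, cnt y (interior (body w')) = cnt y (interior (body w)) :=
    fun y => (cnt_body_inv hw y).2
  unfold PhiL
  simp only [h1, h2]

theorem inv6_vdet : Inv6 (fun w => vdet w) := by
  intro w w' g σ hw
  have h1 : w' = fun q => gmap g ((fun q => w (σ q)) q) := funext hw
  show vdet w' = vdet w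
  rw [h1, Helper63.Cube7.vdet_gmap, Helper63.Cube7.vdet_comp]

/-- **the weight of level 6 is invariant** -/
theorem inv6 (lam mu : ℝ) (Q : ℕ) (x : ℕ → Fin 6 → ℕ) (lp ln : List ℕ) :
    Inv6 (fun w => lam * PhiL Q x lp ln w + mu * vdet w) := by
  intro w w' g σ hw
  show lam * PhiL Q x lp ln w' + mu * vdet w' = lam * PhiL Q x lp ln w + mu * vdet w
  rw [inv6_PhiL Q x lp ln w w' g σ hw, show vdet w' = vdet w from inv6_vdet w w' g σ hw]

end Helper51.Cube8
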